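import Pool.Agent.H.MP_9803f8_al.A

set_option autoImplicit false

namespace Pool.Agent.Results.MP_9803f8_al.No

/-- A group is highly transitive if it has a faithful action on an infinite set that is `k`-transitive for every `k`. -/
def HighlyTransitive (G : Type) [Group G] : Prop :=
  ∃ (Ω : Type) (_ : MulAction G Ω), Infinite Ω ∧ FaithfulSMul G Ω ∧ ∀ k : ℕ, MulAction.IsMultiplyPretransitive G Ω k

/-- The word metric with respect to `S` (used only for generating sets `S`): the least length of a word in `S ∪ S⁻¹` with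
value `a⁻¹ * b`. -/
noncomputable def wd {G : Type} [Group G] (S : Set G) (a b : G) : ℕ :=
  sInf {n | ∃ l : List G, l.length = n ∧ (∀ s ∈ l, s ∈ S ∨ s⁻¹ ∈ S) ∧ l.prod = a⁻¹ * b}

theorem wd_spec {G : Type} [Group G] {S : Set G} (hS : Subgroup.closure S = ⊤) (a b : G) :
    ∃ l : List G, l.length = wd S a b ∧ (∀ s ∈ l, s ∈ S ∨ s⁻¹ ∈ S) ∧ l.prod = a⁻¹ * b := by
  have h : a⁻¹ * b ∈ (Subgroup.closure S).toSubmonoid := hS ▸ Subgroup.mem_top _
  rw [Subgroup.closure_toSubmonoid] at h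
  obtain ⟨l, h1, h2⟩ := Submonoid.exists_list_of_mem_closure h
  exact Nat.sInf_mem (s := {n | ∃ l : List G, l.length = n ∧ (∀ s ∈ l, s ∈ S ∨ s⁻¹ ∈ S) ∧ l.prod = a⁻¹ * b})
    ⟨_, l, rfl, h1, h2⟩

open H.MP_9803f8_al in
/-- There are finitely generated groups `G`, `H` that are quasi-isometric for word metrics, with `H` highly transitive,
such that `G` is not commensurable to any highly transitive group. -/
theorem result : ∃ (G H : Type) (_ : Group G) (_ : Group H) (S : Set G) (T : Set H),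
    S.Finite ∧ Subgroup.closure S = ⊤ ∧ T.Finite ∧ Subgroup.closure T = ⊤ ∧
    (∃ (f : G → H) (C : ℕ), (∀ a b, wd T (f a) (f b) ≤ C * wd S a b + C ∧ wd S a b ≤ C * wd T (f a) (f b) + C) ∧
      ∀ h, ∃ a, wd T h (f a) ≤ C) ∧
    HighlyTransitive H ∧
    ∀ (L : Type) [Group L], HighlyTransitive L → ∀ (A : Subgroup G) (B : Subgroup L), A.FiniteIndex → B.FiniteIndex →
      IsEmpty (A ≃* B) := by
  have hT : Subgroup.closure (π '' S) = ⊤ := by
    rw [← MonoidHom.map_closure, S_gen, Subgroup.map_top_of_surjective _ π_surj]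
  refine ⟨G, HH, inferInstance, inferInstance, S, π '' S, S_fin, S_gen, S_fin.image _, hT, ⟨π, 1, fun a b => ⟨?_, ?_⟩, fun h => ?_⟩,
    ⟨Om, inferInstance, inferInstance, inferInstance, H_trans⟩, ?_⟩
  · obtain ⟨l, h1, h2, h3⟩ := wd_spec S_gen a b
    refine le_trans (Nat.sInf_le ⟨l.map π, rfl, ?_, by rw [← map_list_prod, h3]; simp⟩) (by simp [h1])
    intro s hs
    obtain ⟨x, hx, rfl⟩ := List.mem_map.1 hs
    exact (h2 x hx).imp (fun h => ⟨x, h, rfl⟩) fun h => ⟨x⁻¹, h, map_inv _ _⟩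
  · obtain ⟨l, h1, h2, h3⟩ := wd_spec hT (π a) (π b)
    have : ∀ s ∈ l, ∃ x, (x ∈ S ∨ x⁻¹ ∈ S) ∧ π x = s := fun s hs => by
      rcases h2 s hs with ⟨x, hx, rfl⟩ | ⟨x, hx, e⟩
      · exact ⟨x, .inl hx, rfl⟩
      · exact ⟨x⁻¹, .inr (by simpa using hx), by rw [map_inv, e, inv_inv]⟩
    obtain ⟨m, hm1, hm2⟩ : ∃ m : List G, (∀ x ∈ m, x ∈ S ∨ x⁻¹ ∈ S) ∧ m.map π = l := by
      clear h1 h2 h3
      induction l with
      | nil => exact ⟨[], by simp, rfl⟩
      | cons s l ih =>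
        obtain ⟨m, q1, q2⟩ := ih fun s hs => this s (List.mem_cons_of_mem _ hs)
        obtain ⟨x, q3, q4⟩ := this s List.mem_cons_self
        exact ⟨x :: m, List.forall_mem_cons.2 ⟨q3, q1⟩, by simp [q2, q4]⟩
    have hl : m.length = wd (π '' S) (π a) (π b) := by rw [← h1, ← hm2, List.length_map]
    have hk : π (a⁻¹ * b * m.prod⁻¹) = 1 := by rw [map_mul, map_inv, map_list_prod, hm2, h3]; simp
    rcases π_ker hk with h | h
    · exact le_trans (Nat.sInf_le ⟨m, rfl, hm1, (mul_inv_eq_one.1 h).symm⟩) (by simp [hl])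
    · exact le_trans (Nat.sInf_le ⟨zG :: m, rfl, List.forall_mem_cons.2 ⟨.inl zG_mem, hm1⟩, by
        rw [List.prod_cons, ← h]; simp⟩) (by simp [hl])
  · obtain ⟨a, rfl⟩ := π_surj h
    exact ⟨a, le_trans (Nat.sInf_le ⟨[], rfl, by simp, by simp⟩) (by simp)⟩
  · rintro L _ ⟨Ω, _, _, _, ht⟩ A B _ _
    refine ⟨fun e => zG_ne ?_⟩
    have h1 := centre (ht 2) B (e ⟨zG, zG_fi A⟩ : L) fun g hg => by
      obtain ⟨x, hx⟩ := e.surjective ⟨g, hg⟩
      have : e ⟨zG, zG_fi A⟩ * e x = e x * e ⟨zG, zG_fi A⟩ := by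
        rw [← map_mul, ← map_mul]; exact congrArg e (Subtype.ext (zG_central _))
      rw [hx] at this
      exact congrArg Subtype.val this
    exact congrArg Subtype.val ((map_eq_one_iff e e.injective).1 (Subtype.ext h1))

end Pool.Agent.Results.MP_9803f8_al.No
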